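import Pool.Agent.X150.EV.Gap

/-! The boundary visible from the gaps. -/

set_option autoImplicit false
open Set MeasureTheory Topology
open scoped ENNReal

namespace Pool.Agent.X150.EV

variable {m n : ℕ} {α τ w : ℝ}

/-- the boundary of the pattern -/
def WW (m n : ℕ) (w τ : ℝ) : Set ℂ := bdry (-1) (n + 1) 0 (hh τ (2 * m)) (ob m n w τ)

theorem ob_closed (i : Fin m ⊕ (Fin m × Fin n)) : IsClosed (ob m n w τ i) := by
  rcases i with i | ⟨i, k⟩ <;> exact isClosed_rect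

theorem WW_cases (P : Par m n α τ w) {z : ℂ} (h : z ∈ WW m n w τ) :
    z ∈ (⋃ i, ob m n w τ i) ∨ z.re = -1 ∨ z.re = n + 1 ∨ z.im = 0 ∨ z.im = hh τ (2 * m) := by
  rcases h with h | h
  · rw [mem_iUnion] at h
    obtain ⟨i, hi⟩ := h
    exact Or.inl (mem_iUnion.2 ⟨i, (ob_closed i).frontier_subset hi⟩)
  · have hn := P.n_ge
    rw [mem_frontier_rect (by linarith) (by linarith [hh_ge P.hτ (2 * m)])] at h
    exact Or.inr h.2

theorem W1 (P : Par m n α τ w) {z : ℂ} {i k : ℕ} (hi : i < m) (hk : k + 1 < n)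
    (h1 : hh τ (2 * i + 1) ≤ z.im ∧ z.im ≤ hh τ (2 * i + 1) + τ) (h2 : z.re = k + 1) :
    z ∈ WW m n w τ := by
  refine Or.inl (mem_iUnion.2 ⟨Sum.inr (⟨i, hi⟩, ⟨k + 1, hk⟩), ?_⟩)
  have hw := P.w_le
  have hτ := P.hτ
  simp only [ob]
  rw [mem_frontier_rect (by linarith) (by linarith)]
  refine ⟨⟨⟨?_, ?_⟩, h1⟩, Or.inl ?_⟩ <;> push_cast <;> linarith

theorem W2 (P : Par m n α τ w) {z : ℂ} {i k : ℕ} (hi : i < m) (hk : k + 1 < n)
    (h1 : hh τ (2 * i + 1) ≤ z.im ∧ z.im ≤ hh τ (2 * i + 1) + τ) (h2 : z.re = k + 1 - w) :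
    z ∈ WW m n w τ := by
  refine Or.inl (mem_iUnion.2 ⟨Sum.inr (⟨i, hi⟩, ⟨k, by omega⟩), ?_⟩)
  have hw := P.w_le
  have hτ := P.hτ
  simp only [ob]
  rw [mem_frontier_rect (by linarith) (by linarith)]
  exact ⟨⟨⟨by linarith, by linarith⟩, h1⟩, Or.inr (Or.inl h2)⟩

theorem W3 (P : Par m n α τ w) {z : ℂ} {i : ℕ} (hi : i < m)
    (h1 : z.im = hh τ (2 * i + 1 + 1)) (h2 : 0 ≤ z.re ∧ z.re ≤ n - w) : z ∈ WW m n w τ := by
  have hw := P.w_le
  have hw0 := P.w_pos
  have hτ := P.hτ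
  have hn := P.n_ge
  rcases Nat.lt_or_ge (i + 1) m with h | h
  · refine Or.inl (mem_iUnion.2 ⟨Sum.inl ⟨i + 1, h⟩, ?_⟩)
    simp only [ob]
    rw [mem_frontier_rect (by linarith) (by linarith)]
    have e : hh τ (2 * (i + 1)) = hh τ (2 * i + 1 + 1) := by congr 1
    rw [e]
    exact ⟨⟨h2, by linarith, by linarith⟩, Or.inr (Or.inr (Or.inl h1))⟩
  · have e : 2 * i + 1 + 1 = 2 * m := by omega
    rw [e] at h1
    refine Or.inr ?_
    rw [mem_frontier_rect (by linarith) (by linarith [hh_ge hτ (2 * m)])]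
    exact ⟨⟨⟨by linarith [h2.1], by linarith [h2.2]⟩, by linarith [hh_ge hτ (2 * m)], h1.le⟩,
      Or.inr (Or.inr (Or.inr h1))⟩

theorem W4 (P : Par m n α τ w) {z : ℂ} {i : ℕ} (hi : i < m)
    (h1 : z.im = hh τ (2 * i) + τ) (h2 : 0 ≤ z.re ∧ z.re ≤ n - w) : z ∈ WW m n w τ := by
  have hw := P.w_le
  have hτ := P.hτ
  have hn := P.n_ge
  refine Or.inl (mem_iUnion.2 ⟨Sum.inl ⟨i, hi⟩, ?_⟩)
  simp only [ob]
  rw [mem_frontier_rect (by linarith) (by linarith)]
  exact ⟨⟨h2, by linarith, by linarith⟩, Or.inr (Or.inr (Or.inr h1))⟩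

theorem W5 (P : Par m n α τ w) {z : ℂ} (h : z ∈ WW m n w τ) (h1 : -1 < z.re ∧ z.re < n + 1)
    (h2 : 0 < z.im ∧ z.im < hh τ (2 * m))
    (h3 : ∀ r < 2 * m, ¬ (hh τ r ≤ z.im ∧ z.im ≤ hh τ r + τ)) : False := by
  rcases WW_cases P h with h | h | h | h | h
  · obtain ⟨_, r, hr, hr2⟩ := ob_row h
    exact h3 r hr hr2
  · linarith [h1.1]
  · linarith [h1.2]
  · linarith [h2.1]
  · linarith [h2.2]

theorem W6 (P : Par m n α τ w) {z : ℂ} (h : z ∈ WW m n w τ) {i k : ℕ} (hi : i < m)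
    (hk : k + 1 < n) (h1 : hh τ (2 * i + 1) ≤ z.im ∧ z.im ≤ hh τ (2 * i + 1) + τ)
    (h2 : k + 1 - w < z.re ∧ z.re < k + 1) : False := by
  have hw := P.w_le
  have hkn : (k : ℝ) + 2 ≤ n := by exact_mod_cast hk
  have hk0 : (0 : ℝ) ≤ k := Nat.cast_nonneg k
  rcases WW_cases P h with h | h | h | h | h
  · exact not_ob P h1 h2 h
  · linarith [h2.1]
  · linarith [h2.2]
  · linarith [h1.1, hh_ge P.hτ (2 * i + 1)]
  · linarith [h1.2, hh_lt P.hτ (show 2 * i + 1 < 2 * m by omega)]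

theorem cross_re {v u : ℂ} {c : ℝ} (h : (v.re < c ∧ c < u.re) ∨ (u.re < c ∧ c < v.re)) :
    ∃ z ∈ segment ℝ v u, z.re = c ∧ z ≠ u ∧ z ≠ v ∧
      ∃ s : ℝ, 0 ≤ s ∧ s ≤ 1 ∧ z.im = v.im + s * (u.im - v.im) := by
  have hne : u.re - v.re ≠ 0 := by
    rcases h with h | h
    · have : v.re < u.re := h.1.trans h.2
      exact sub_ne_zero.2 this.ne'
    · have : u.re < v.re := h.1.trans h.2
      exact sub_ne_zero.2 this.ne
  set s := (c - v.re) / (u.re - v.re) with hs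
  have hs0 : 0 ≤ s := by
    rcases h with h | h
    · exact div_nonneg (by linarith [h.1]) (by linarith [h.1, h.2])
    · exact div_nonneg_of_nonpos (by linarith [h.2]) (by linarith [h.1, h.2])
  have hs1 : s ≤ 1 := by
    rcases h with h | h
    · rw [hs, div_le_one (by linarith [h.1, h.2])]; linarith [h.2]
    · rw [hs, div_le_one_of_neg (by linarith [h.1, h.2])]; linarith [h.1]
  have hz : (v + (s : ℂ) * (u - v)).re = c := by
    simp only [Complex.add_re, Complex.mul_re, Complex.ofReal_re, Complex.ofReal_im, Complex.sub_re,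
      zero_mul, sub_zero]
    rw [hs, div_mul_cancel₀ _ hne]; ring
  refine ⟨v + (s : ℂ) * (u - v), ?_, hz, ?_, ?_, s, hs0, hs1, ?_⟩
  · rw [segment_eq_image']
    exact ⟨s, ⟨hs0, hs1⟩, by simp⟩
  · intro e; rw [e] at hz; rcases h with h | h <;> linarith [h.1, h.2]
  · intro e; rw [e] at hz; rcases h with h | h <;> linarith [h.1, h.2]
  · simp

theorem cross_im {v u : ℂ} {c : ℝ} (h : (v.im < c ∧ c < u.im) ∨ (u.im < c ∧ c < v.im)) :
    ∃ z ∈ segment ℝ v u, z.im = c ∧ z ≠ u ∧ z ≠ v ∧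
      (z.re - v.re) * (u.im - v.im) = (u.re - v.re) * (c - v.im) := by
  have hne : u.im - v.im ≠ 0 := by
    rcases h with h | h
    · have : v.im < u.im := h.1.trans h.2
      exact sub_ne_zero.2 this.ne'
    · have : u.im < v.im := h.1.trans h.2
      exact sub_ne_zero.2 this.ne
  set s := (c - v.im) / (u.im - v.im) with hs
  have hs0 : 0 ≤ s := by
    rcases h with h | h
    · exact div_nonneg (by linarith [h.1]) (by linarith [h.1, h.2])
    · exact div_nonneg_of_nonpos (by linarith [h.2]) (by linarith [h.1, h.2])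
  have hs1 : s ≤ 1 := by
    rcases h with h | h
    · rw [hs, div_le_one (by linarith [h.1, h.2])]; linarith [h.2]
    · rw [hs, div_le_one_of_neg (by linarith [h.1, h.2])]; linarith [h.1]
  have hz : (v + (s : ℂ) * (u - v)).im = c := by
    simp only [Complex.add_im, Complex.mul_im, Complex.ofReal_re, Complex.ofReal_im, Complex.sub_im,
      zero_mul, add_zero]
    rw [hs, div_mul_cancel₀ _ hne]; ring
  refine ⟨v + (s : ℂ) * (u - v), ?_, hz, ?_, ?_, ?_⟩
  · rw [segment_eq_image']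
    exact ⟨s, ⟨hs0, hs1⟩, by simp⟩
  · intro e; rw [e] at hz; rcases h with h | h <;> linarith [h.1, h.2]
  · intro e; rw [e] at hz; rcases h with h | h <;> linarith [h.1, h.2]
  · have : (v + (s : ℂ) * (u - v)).re = v.re + s * (u.re - v.re) := by simp
    rw [this, hs]
    field_simp
    ring

/-- a ray that leaves the gap within width `w` after depth at least `τ / 4` spreads by at most
`4 α` at distance one -/
theorem ray_bound {x x' z p h : ℝ} (hτ : 0 < τ) (hw : w = α * τ)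
    (e : (z - x) * p = (x' - x) * (p + h)) (hx : |x' - x| ≤ w) (hp : τ / 4 ≤ p) (h0 : 0 ≤ h)
    (h1 : h ≤ 1) : |z - x'| ≤ 4 * α := by
  have hp0 : 0 < p := by linarith
  have e1 : (z - x') * p = (x' - x) * h := by linarith
  have e2 : |z - x'| * p = |x' - x| * h := by
    rw [← abs_of_pos hp0, ← abs_mul, e1, abs_mul, abs_of_nonneg h0]
  have e3 : |z - x'| * p ≤ w := by
    rw [e2]
    calc |x' - x| * h ≤ |x' - x| * 1 := mul_le_mul_of_nonneg_left h1 (abs_nonneg _)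
      _ ≤ w := by rw [mul_one]; exact hx
  have e4 : |z - x'| * (τ / 4) ≤ α * τ := by
    rw [← hw]
    exact (mul_le_mul_of_nonneg_left hp (abs_nonneg _)).trans e3
  by_contra hc
  nlinarith [not_le.1 hc]

end Pool.Agent.X150.EV
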