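import Pool.Agent.X150.EV.Gap

/-! The free space of the pattern is path connected. -/

set_option autoImplicit false
open Set MeasureTheory Topology

namespace Pool.Agent.X150.EV

variable {m n : ℕ} {α τ w : ℝ}

theorem join_of_vis {F : Set ℂ} {v v' : ℂ} (h : v' ∈ vis F v) : JoinedIn F v v' :=
  JoinedIn.of_segment_subset h

theorem connected (P : Par m n α τ w) : IsPathConnected (FF m n w τ) := by
  have hτ := P.hτ
  have hn := P.n_ge
  have hH := hh_ge hτ (2 * m)
  have hw := P.w_le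
  have hw0 := P.w_pos
  -- the base point
  set b0 : ℂ := ⟨-1 / 2, 1 / 2⟩ with hb0
  have hb0F : b0 ∈ FF m n w τ := F1 P ⟨⟨by norm_num [hb0], by simp only [hb0]; linarith⟩,
    by norm_num [hb0], by simp only [hb0]; linarith⟩ (Or.inl (by norm_num [hb0]))
  have left : ∀ v ∈ FF m n w τ, v.re < 0 → JoinedIn (FF m n w τ) v b0 := by
    intro v hv h
    exact join_of_vis (vis_left P hv h ⟨⟨by norm_num [hb0], by norm_num [hb0]⟩,
      by norm_num [hb0], by simp only [hb0]; linarith⟩)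
  have slab : ∀ v ∈ FF m n w τ, (∃ r ≤ 2 * m, r * (1 + τ) ≤ v.im ∧ v.im ≤ hh τ r) →
      JoinedIn (FF m n w τ) v b0 := by
    rintro v hv ⟨r, hr, h1, h2⟩
    have h3 := vis_slab P hv hr h1 h2
    have h4 : (⟨-1 / 2, r * (1 + τ) + 1 / 2⟩ : ℂ) ∈ vis (FF m n w τ) v := by
      apply h3
      refine ⟨⟨by norm_num, ?_⟩, ?_, ?_⟩
      · show (-1 / 2 : ℝ) < n + 1
        linarith
      · show (r : ℝ) * (1 + τ) < r * (1 + τ) + 1 / 2
        linarith
      · show (r : ℝ) * (1 + τ) + 1 / 2 < hh τ r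
        unfold hh; linarith
    exact (join_of_vis h4).trans (left _ (vis_sub h4) (by norm_num))
  refine ⟨b0, hb0F, fun {y} hy => ?_⟩
  refine JoinedIn.symm ?_
  rcases locate P hy with h | h | h | ⟨i, hi, k, hk, h1, h2⟩
  · exact left y hy h
  · have h4 : (⟨n + 1 / 2, 1 / 2⟩ : ℂ) ∈ vis (FF m n w τ) y := by
      apply vis_right P hy h
      refine ⟨⟨?_, ?_⟩, ?_, ?_⟩
      · show (n : ℝ) < n + 1 / 2
        linarith
      · show (n : ℝ) + 1 / 2 < n + 1
        linarith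
      · show (0 : ℝ) < 1 / 2
        norm_num
      · show (1 / 2 : ℝ) < hh τ (2 * m)
        linarith
    refine (join_of_vis h4).trans (slab _ (vis_sub h4) ⟨0, by omega, ?_, ?_⟩)
    · simp
    · show (1 / 2 : ℝ) ≤ hh τ 0
      linarith [hh_ge hτ 0]
  · exact slab y hy (find_slab P hy h)
  · have h4 : (⟨y.re, hh τ (2 * i + 1) + τ + 3 / 4⟩ : ℂ) ∈ vis (FF m n w τ) y := by
      apply vis_gap P hy hi hk h1 h2
      have hp : 0 < 1 + 1 / (2 * τ) := by positivity
      refine ⟨⟨?_, ?_⟩, ?_, ?_⟩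
      · show y.re - (y.re - (k + 1 - w)) * (1 + 1 / (2 * τ)) < y.re
        have : 0 < (y.re - (k + 1 - w)) * (1 + 1 / (2 * τ)) := mul_pos (by linarith [h2.1]) hp
        linarith
      · show y.re < y.re + (k + 1 - y.re) * (1 + 1 / (2 * τ))
        have : 0 < (k + 1 - y.re) * (1 + 1 / (2 * τ)) := mul_pos (by linarith [h2.2]) hp
        linarith
      · show hh τ (2 * i + 1) + τ + 1 / 2 < hh τ (2 * i + 1) + τ + 3 / 4
        linarith
      · show hh τ (2 * i + 1) + τ + 3 / 4 < hh τ (2 * i + 1) + τ + 1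
        linarith
    refine (join_of_vis h4).trans (slab _ (vis_sub h4) ⟨2 * i + 1 + 1, by omega, ?_, ?_⟩)
    · show (((2 * i + 1 + 1 : ℕ) : ℝ)) * (1 + τ) ≤ hh τ (2 * i + 1) + τ + 3 / 4
      have : (((2 * i + 1 + 1 : ℕ) : ℝ)) * (1 + τ) = hh τ (2 * i + 1) + τ := by
        unfold hh; push_cast; ring
      rw [this]; linarith
    · show hh τ (2 * i + 1) + τ + 3 / 4 ≤ hh τ (2 * i + 1 + 1)
      have := hh_succ (τ := τ) (2 * i + 1)
      linarith

end Pool.Agent.X150.EV
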