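import Mathlib

/-! Planar spaces with obstacles, visibility and visible boundary. The plane is `ℂ`. -/

set_option autoImplicit false
open Set MeasureTheory

namespace Pool.Agent.X150.EV

/-- the closed rectangle `[a, b] × [c, d]` -/
def rect (a b c d : ℝ) : Set ℂ := {z | (a ≤ z.re ∧ z.re ≤ b) ∧ c ≤ z.im ∧ z.im ≤ d}

/-- planar area -/
noncomputable def area (S : Set ℂ) : ℝ := (volume S).toReal

/-- the boundary of `K` is a finite union of regular `C²` arcs -/
def PiecewiseSmooth (K : Set ℂ) : Prop :=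
  ∃ (n : ℕ) (γ : Fin n → ℝ → ℂ), (∀ i, ContDiff ℝ 2 (γ i) ∧ InjOn (γ i) (Icc 0 1) ∧
    ∀ t ∈ Icc (0 : ℝ) 1, deriv (γ i) t ≠ 0) ∧ frontier K = ⋃ i, γ i '' Icc 0 1

/-- the free space of the rectangle `[a, b] × [c, d]` with obstacles `O i` -/
def free (a b c d : ℝ) {ι : Type} (O : ι → Set ℂ) : Set ℂ := rect a b c d \ ⋃ i, O i

/-- the boundaries of the obstacles together with the sides of the rectangle -/
def bdry (a b c d : ℝ) {ι : Type} (O : ι → Set ℂ) : Set ℂ :=
  (⋃ i, frontier (O i)) ∪ frontier (rect a b c d)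

/-- `[a, b] × [c, d]` with obstacles `O i` is a space with constants `lam`, `rho` -/
def IsSpace (lam rho a b c d : ℝ) {ι : Type} (O : ι → Set ℂ) : Prop :=
  (a < b ∧ c < d) ∧ (lam * (b - a) ≤ d - c ∧ lam * (d - c) ≤ b - a) ∧ Finite ι ∧
    (∀ i, IsCompact (O i) ∧ O i ⊆ rect a b c d ∧ PiecewiseSmooth (O i)) ∧
    (Pairwise fun i j => Disjoint (O i) (O j)) ∧
    rho * area (rect a b c d) ≤ area (free a b c d O)

/-- the part of `F` visible from `v` -/
def vis (F : Set ℂ) (v : ℂ) : Set ℂ := {v' | segment ℝ v v' ⊆ F}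

/-- the free space `F` is `ε`-visible -/
def EpsVisible (ε : ℝ) (F : Set ℂ) : Prop := ∀ v ∈ F, ε * area F ≤ area (vis F v)

/-- the part of `W` visible from `v`: the half-open segment `[v, u)` contains no point of `W`
other than possibly `v` -/
def visB (W : Set ℂ) (v : ℂ) : Set ℂ := {u ∈ W | ∀ x ∈ segment ℝ v u, x ∈ W → x = u ∨ x = v}

open Measure in
/-- the points of `F` that see boundary of length less than `κ √(ε μ(F))` -/
def exc (κ ε : ℝ) (F W : Set ℂ) : Set ℂ :=
  {v ∈ F | μH[1] (visB W v) < ENNReal.ofReal (κ * √(ε * area F))}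

end Pool.Agent.X150.EV
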