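import Pool.Agent.X150.EV.Seen
import Pool.Agent.X150.EV.Conn

/-! The counterexample. -/

set_option autoImplicit false
open Set MeasureTheory Topology
open scoped ENNReal

namespace Pool.Agent.X150.EV

variable {m n : ℕ} {α τ w : ℝ}

theorem Par.n_real (P : Par m n α τ w) : (n : ℝ) = 2 * m - 1 := by
  have : ((n + 1 : ℕ) : ℝ) = ((2 * m : ℕ) : ℝ) := by rw [P.hn]
  push_cast at this
  linarith

theorem Par.m_ge (P : Par m n α τ w) : (2 : ℝ) ≤ m := by exact_mod_cast P.hm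

theorem area_RR (P : Par m n α τ w) : area (RR m n τ) = (2 * m + 1) * (1 + 2 * m * (1 + τ)) := by
  have hn := P.n_ge
  have hH := hh_ge P.hτ (2 * m)
  unfold RR
  rw [area_rect (by linarith) (by linarith), P.n_real]
  unfold hh
  push_cast
  ring

theorem area_RR_le (P : Par m n α τ w) : area (RR m n τ) ≤ (2 * m + 1) ^ 2 * (1 + τ) := by
  rw [area_RR P]
  have := P.m_ge
  have := P.hτ
  nlinarith

theorem FF_sub : FF m n w τ ⊆ RR m n τ := sdiff_subset

theorem area_FF_ge (P : Par m n α τ w) : (2 * m + 1) ^ 2 ≤ area (FF m n w τ) := by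
  have hn := P.n_ge
  have hτ := P.hτ
  have hm := P.m_ge
  have h1 := area_bars (x := -1) (p := n + 2) (l := n + 2) (y := 0) (q := 1 + τ) (r := 1)
    (by linarith) le_rfl zero_le_one (by linarith) 1 (2 * m + 1)
  have h2 : area (bars (-1) (n + 2) (n + 2) 1 ×ℂ bars 0 (1 + τ) 1 (2 * m + 1)) ≤
      area (FF m n w τ) := by
    refine area_mono ?_ (FF_sub (m := m) (n := n) (w := w) (τ := τ))
    rintro z ⟨h3, h4⟩
    simp only [bars, mem_preimage, mem_iUnion, Finset.mem_range, exists_prop] at h3 h4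
    obtain ⟨k, hk, h5, h6⟩ := h3
    obtain ⟨r, hr, h7, h8⟩ := h4
    have hk0 : k = 0 := by omega
    subst hk0
    push_cast at h5 h6
    have hr2 : r ≤ 2 * m := by omega
    have h9 : hh τ r = r * (1 + τ) + 1 := by unfold hh; ring
    have h10 := hh_mono hτ hr2
    have hr0 : (0 : ℝ) ≤ r * (1 + τ) := by positivity
    refine F2 P ⟨⟨by linarith, by linarith⟩, by linarith, by linarith⟩ fun s _ =>
      slab_not_row (r := r) hτ (by linarith) (by linarith)
  rw [h1] at h2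
  refine le_trans (le_of_eq ?_) h2
  rw [P.n_real]
  push_cast
  ring

theorem disj (P : Par m n α τ w) : Pairwise fun i j => Disjoint (ob m n w τ i) (ob m n w τ j) := by
  intro i j hij
  rw [Set.disjoint_left]
  intro z h1 h2
  have hw := P.w_pos
  rcases i with i | ⟨i, k⟩ <;> rcases j with j | ⟨j, l⟩
  · have := row_unique P.hτ h1.2 h2.2
    exact hij (by rw [Fin.ext (by omega : (i : ℕ) = j)])
  · have := row_unique P.hτ h1.2 h2.2
    omega
  · have := row_unique P.hτ h1.2 h2.2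
    omega
  · have h3 := row_unique P.hτ h1.2 h2.2
    have h4 : i = j := Fin.ext (by omega)
    subst h4
    have h5 : (k : ℕ) ≠ l := fun h => hij (by rw [Fin.ext h])
    have a1 := h1.1.1; have a2 := h1.1.2; have b1 := h2.1.1; have b2 := h2.1.2
    rcases lt_or_gt_of_ne h5 with h | h
    · have : ((k : ℕ) : ℝ) + 1 ≤ (l : ℕ) := by exact_mod_cast h
      linarith
    · have : ((l : ℕ) : ℝ) + 1 ≤ (k : ℕ) := by exact_mod_cast h
      linarith

theorem ob_sub (P : Par m n α τ w) (i : Fin m ⊕ (Fin m × Fin n)) :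
    ob m n w τ i ⊆ RR m n τ := by
  intro z hz
  have hw := P.w_pos
  have hτ := P.hτ
  obtain ⟨h1, r, hr, h2⟩ := ob_row (mem_iUnion.2 ⟨i, hz⟩)
  have h3 := hh_lt hτ hr
  have h4 := hh_ge hτ r
  exact ⟨⟨by linarith [h1.1], by linarith [h1.2]⟩, by linarith [h2.1], by linarith [h2.2]⟩

theorem ob_rect (P : Par m n α τ w) (i : Fin m ⊕ (Fin m × Fin n)) :
    ∃ a b c d : ℝ, a < b ∧ c < d ∧ ob m n w τ i = rect a b c d := by
  have hn := P.n_ge
  have hw := P.w_le
  have hτ := P.hτ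
  rcases i with i | ⟨i, k⟩
  · exact ⟨_, _, _, _, by linarith, by linarith, rfl⟩
  · exact ⟨_, _, _, _, by linarith, by linarith, rfl⟩

theorem isSpace (P : Par m n α τ w) {lam rho : ℝ} (hl0 : 0 < lam) (hr0 : 0 < rho)
    (hl : lam * (1 + τ) ≤ 1) (hr : rho * (1 + τ) ≤ 1) :
    IsSpace lam rho (-1) (n + 1) 0 (hh τ (2 * m)) (ob m n w τ) := by
  have hn := P.n_ge
  have hτ := P.hτ
  have hm := P.m_ge
  have hnr := P.n_real
  have hH : hh τ (2 * m) = 1 + 2 * m * (1 + τ) := by unfold hh; push_cast; ring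
  have hmt : 0 < (m : ℝ) * τ := by positivity
  refine ⟨⟨by linarith, by rw [hH]; nlinarith⟩, ⟨?_, ?_⟩, inferInstance, ?_, disj P, ?_⟩
  · rw [hH, hnr]
    have : lam ≤ 1 := by nlinarith
    nlinarith
  · rw [hH, hnr]
    have h1 : 1 + 2 * m * (1 + τ) - 0 ≤ (2 * m + 1) * (1 + τ) := by nlinarith
    calc lam * (1 + 2 * m * (1 + τ) - 0) ≤ lam * ((2 * m + 1) * (1 + τ)) :=
          mul_le_mul_of_nonneg_left h1 hl0.le
      _ = (lam * (1 + τ)) * (2 * m + 1) := by ring
      _ ≤ 1 * (2 * m + 1) := mul_le_mul_of_nonneg_right hl (by linarith)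
      _ = _ := by ring
  · intro i
    obtain ⟨a, b, c, d, hab, hcd, e⟩ := ob_rect P i
    refine ⟨by rw [e]; exact isCompact_rect, ob_sub P i, by rw [e]; exact smooth_rect hab hcd⟩
  · calc rho * area (RR m n τ) ≤ rho * ((2 * m + 1) ^ 2 * (1 + τ)) :=
          mul_le_mul_of_nonneg_left (area_RR_le P) hr0.le
      _ = (rho * (1 + τ)) * (2 * m + 1) ^ 2 := by ring
      _ ≤ 1 * (2 * m + 1) ^ 2 := mul_le_mul_of_nonneg_right hr (by positivity)
      _ = (2 * m + 1) ^ 2 := one_mul _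
      _ ≤ area (FF m n w τ) := area_FF_ge P

theorem area_exc (P : Par m n α τ w) {κ ε : ℝ}
    (h : 2 * τ + 2 * (w + 8 * α) < κ * √(ε * area (FF m n w τ))) :
    m * (m - 1) * (w * τ) ≤ area (exc κ ε (FF m n w τ) (WW m n w τ)) := by
  have hn := P.n_ge
  have hτ := P.hτ
  have hm := P.m_ge
  have hw := P.w_pos
  have hwl := P.w_le
  have hα := P.hα
  have h1 := area_bars (x := 1 - w) (p := 1) (l := w) (y := hh τ 1 + τ / 4) (q := 2 * (1 + τ))
    (r := τ / 2) hw.le (by linarith) (by linarith) (by linarith) (n - 1) m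
  have h2 : area (bars (1 - w) 1 w (n - 1) ×ℂ bars (hh τ 1 + τ / 4) (2 * (1 + τ)) (τ / 2) m) ≤
      area (exc κ ε (FF m n w τ) (WW m n w τ)) := by
    refine area_mono ?_ ((fun z hz => FF_sub hz.1 :
      exc κ ε (FF m n w τ) (WW m n w τ) ⊆ RR m n τ))
    rintro z ⟨h3, h4⟩
    simp only [bars, mem_preimage, mem_iUnion, Finset.mem_range, exists_prop] at h3 h4
    obtain ⟨k, hk, h5, h6⟩ := h3
    obtain ⟨i, hi, h7, h8⟩ := h4
    have hk1 : k + 1 < n := by omega
    have e1 : hh τ 1 + i * (2 * (1 + τ)) = hh τ (2 * i + 1) := by unfold hh; push_cast; ring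
    have M : Mid m n w τ i k z := by
      refine ⟨hi, hk1, by linarith, by linarith, ?_, ?_⟩
      · rw [← e1]; linarith
      · rw [← e1]; linarith
    have hkn : (k : ℝ) + 2 ≤ n := by exact_mod_cast hk1
    have hk0 : (0 : ℝ) ≤ k := Nat.cast_nonneg k
    have hrow := hh_ge hτ (2 * i + 1)
    have htop := hh_lt hτ (show 2 * i + 1 < 2 * m by omega)
    have y1 := M.y1; have y2 := M.y2; have x1 := M.x1; have x2 := M.x2
    refine ⟨⟨⟨⟨by linarith, by linarith⟩, by linarith, by linarith⟩,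
      not_ob P (i := i) (k := k) ⟨by linarith, by linarith⟩ ⟨x1, x2⟩⟩, ?_⟩
    refine lt_of_le_of_lt (length_seen P M) ?_
    rw [ENNReal.ofReal_lt_ofReal_iff (by linarith)]
    exact h
  rw [h1] at h2
  refine le_trans (le_of_eq ?_) h2
  have : ((n - 1 : ℕ) : ℝ) = n - 1 := by
    have : 1 ≤ n := by have := P.hn; have := P.hm; omega
    push_cast [this]; ring
  rw [this, P.n_real]
  ring

set_option maxHeartbeats 2000000 in
/-- the counterexample -/
theorem main (lam rho : ℝ) (hl0 : 0 < lam) (hl1 : lam < 1) (hr0 : 0 < rho) (hr1 : rho < 1)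
    (κ C : ℝ) (hκ : 0 < κ) (hC : 0 < C) :
    ∃ ε : ℝ, 0 < ε ∧ ε ≤ 1 ∧ ∃ (a b c d : ℝ) (ι : Type) (O : ι → Set ℂ),
      IsSpace lam rho a b c d O ∧ (∀ i, Convex ℝ (O i)) ∧ IsPathConnected (free a b c d O) ∧
      EpsVisible ε (free a b c d O) ∧
      C * √ε * area (free a b c d O) <
        area (exc κ ε (free a b c d O) (bdry a b c d O)) := by
  set s : ℝ := min (κ / 100) (1 / 10) with hs
  have hs0 : 0 < s := lt_min (by positivity) (by norm_num)
  have hs1 : s ≤ κ / 100 := min_le_left _ _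
  have hs2 : s ≤ 1 / 10 := min_le_right _ _
  set τ : ℝ := min (min 1 (κ * s / 50)) (min (1 - lam) (1 - rho)) with hτd
  have hτ0 : 0 < τ := lt_min (lt_min one_pos (by positivity)) (lt_min (by linarith) (by linarith))
  have hτ1 : τ ≤ 1 := (min_le_left _ _).trans (min_le_left _ _)
  have hτ2 : τ ≤ κ * s / 50 := (min_le_left _ _).trans (min_le_right _ _)
  have hτ3 : τ ≤ 1 - lam := (min_le_right _ _).trans (min_le_left _ _)
  have hτ4 : τ ≤ 1 - rho := (min_le_right _ _).trans (min_le_right _ _)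
  have hα0 : 0 < s ^ 2 := by positivity
  have hα1 : s ^ 2 ≤ 1 / 100 := by nlinarith
  set w : ℝ := s ^ 2 * τ with hw
  have hw0 : 0 < w := by positivity
  obtain ⟨M, hM⟩ := exists_nat_gt (3 * C * s / (w * τ))
  set m : ℕ := M + 2 with hm
  have P : Par m (2 * m - 1) (s ^ 2) τ w :=
    ⟨by omega, by omega, hα0, hα1, hτ0, hτ1, rfl⟩
  have hmR := P.m_ge
  have hF1 := area_FF_ge P
  have hF2 : area (FF m (2 * m - 1) w τ) ≤ (2 * m + 1) ^ 2 * (1 + τ) :=
    (area_mono FF_sub (fun _ h => h : RR m (2 * m - 1) τ ⊆ RR m (2 * m - 1) τ)).trans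
      (area_RR_le P)
  set A := area (FF m (2 * m - 1) w τ) with hA
  have hG : 0 < ((2 : ℝ) * m + 1) ^ 2 * (1 + τ) := by positivity
  set ε : ℝ := s ^ 2 / (4 * ((2 * m + 1) ^ 2 * (1 + τ))) with hε
  have hε0 : 0 < ε := by positivity
  have hεA1 : ε * A ≤ s ^ 2 / 4 := by
    calc ε * A ≤ ε * ((2 * m + 1) ^ 2 * (1 + τ)) := mul_le_mul_of_nonneg_left hF2 hε0.le
      _ = s ^ 2 / 4 := by rw [hε]; field_simp
  have hεA2 : s ^ 2 / 9 ≤ ε * A := by
    have h1 : ε * (2 * m + 1) ^ 2 ≤ ε * A := mul_le_mul_of_nonneg_left hF1 hε0.le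
    have h2 : ε * (2 * m + 1) ^ 2 = s ^ 2 / (4 * (1 + τ)) := by rw [hε]; field_simp
    have h3 : s ^ 2 / 9 ≤ s ^ 2 / (4 * (1 + τ)) :=
      div_le_div_of_nonneg_left hα0.le (by linarith) (by linarith)
    linarith
  have hε1 : ε ≤ 1 := by
    rw [hε, div_le_one (by positivity)]
    nlinarith [hG, hmR, mul_pos (show (0 : ℝ) < 2 * m + 1 by positivity)
      (show (0 : ℝ) < 2 * m + 1 by positivity)]
  have hsq : s / 3 ≤ √(ε * A) := by
    apply Real.le_sqrt_of_sq_le
    calc (s / 3) ^ 2 = s ^ 2 / 9 := by ring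
      _ ≤ ε * A := hεA2
  have hlen : 2 * τ + 2 * (w + 8 * s ^ 2) < κ * √(ε * A) := by
    have h1 : κ * (s / 3) ≤ κ * √(ε * A) := mul_le_mul_of_nonneg_left hsq hκ.le
    have h2 : s ^ 2 ≤ κ / 100 * s := by nlinarith
    have h3 : w ≤ τ := by
      rw [hw]; nlinarith
    have h4 : 0 < κ * s := by positivity
    have h5 : 2 * τ + 2 * (w + 8 * s ^ 2) ≤ 4 * (κ * s / 50) + 16 * (κ / 100 * s) := by linarith
    have h6 : 4 * (κ * s / 50) + 16 * (κ / 100 * s) < κ * (s / 3) := by nlinarith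
    linarith
  refine ⟨ε, hε0, hε1, -1, ((2 * m - 1 : ℕ) : ℝ) + 1, 0, hh τ (2 * m), _,
    ob m (2 * m - 1) w τ, isSpace P hl0 hr0 (by nlinarith) (by nlinarith), ?_, connected P, ?_, ?_⟩
  · intro i
    obtain ⟨a, b, c, d, -, -, e⟩ := ob_rect P i
    rw [e]
    exact ((convex_Icc a b).linear_preimage Complex.reLm).inter
      ((convex_Icc c d).linear_preimage Complex.imLm)
  · intro v hv
    exact hεA1.trans (vis_area P hv)
  · refine lt_of_lt_of_le ?_ (area_exc P hlen)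
    have h1 : √ε ≤ s / (2 * (2 * m + 1)) := by
      apply Real.sqrt_le_iff.2
      refine ⟨by positivity, ?_⟩
      rw [hε, div_pow]
      apply div_le_div_of_nonneg_left hα0.le (by positivity)
      have : (2 * (2 * (m : ℝ) + 1)) ^ 2 = 4 * ((2 * m + 1) ^ 2 * 1) := by ring
      rw [this]
      have : ((2 : ℝ) * m + 1) ^ 2 * 1 ≤ (2 * m + 1) ^ 2 * (1 + τ) :=
        mul_le_mul_of_nonneg_left (by linarith) (by positivity)
      linarith
    have h2 : A ≤ 2 * (2 * m + 1) ^ 2 := by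
      refine hF2.trans ?_
      nlinarith [sq_nonneg ((2 : ℝ) * m + 1)]
    have hA0 : 0 ≤ A := by
      refine le_trans ?_ hF1
      positivity
    have h3 : √ε * A ≤ s * (2 * m + 1) := by
      calc √ε * A ≤ s / (2 * (2 * m + 1)) * (2 * (2 * m + 1) ^ 2) :=
            mul_le_mul h1 h2 hA0 (by positivity)
        _ = s * (2 * m + 1) := by field_simp
    have h4 : 3 * C * s < (m - 1) * (w * τ) := by
      rw [div_lt_iff₀ (by positivity)] at hM
      have : (m : ℝ) - 1 = M + 1 := by rw [hm]; push_cast; ring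
      rw [this]
      nlinarith [mul_pos hw0 hτ0]
    calc C * √ε * A = C * (√ε * A) := by ring
      _ ≤ C * (s * (2 * m + 1)) := mul_le_mul_of_nonneg_left h3 hC.le
      _ ≤ m * (3 * C * s) := by nlinarith [mul_pos hC hs0]
      _ < m * ((m - 1) * (w * τ)) := mul_lt_mul_of_pos_left h4 (by linarith)
      _ = m * (m - 1) * (w * τ) := by ring

end Pool.Agent.X150.EV
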