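import Pool.Agent.X150.EV.Pattern

/-! Visibility from the gaps, and `ε`-visibility of the pattern. -/

set_option autoImplicit false
open Set MeasureTheory Topology

namespace Pool.Agent.X150.EV

variable {m n : ℕ} {α τ w : ℝ}

/-- the key estimate: below the opening, the segment stays in the gap -/
theorem gap_ineq {s p q e δ : ℝ} (hτ : 0 < τ) (hs : 0 ≤ s) (h1 : s ≤ 1) (hpτ : p ≤ τ)
    (hq : 1 / 2 < q) (hsp : s * (p + q) ≤ p) (he : 0 < e) (hδ : δ < e * (1 + 1 / (2 * τ))) :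
    s * δ < e := by
  have h2 : s * (1 / 2 + τ) ≤ τ := by
    have a1 : s * q ≤ (1 - s) * p := by linarith
    have a2 : (1 - s) * p ≤ (1 - s) * τ := mul_le_mul_of_nonneg_left hpτ (by linarith)
    have a3 : s * (1 / 2) ≤ s * q := mul_le_mul_of_nonneg_left hq.le hs
    linarith
  have h3 : s * (1 + 1 / (2 * τ)) ≤ 1 := by
    have : 1 + 1 / (2 * τ) = (1 / 2 + τ) / τ := by field_simp; ring
    rw [this, ← mul_div_assoc, div_le_one hτ]
    exact h2
  rcases hs.eq_or_lt with h0 | h0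
  · rw [← h0, zero_mul]; exact he
  · calc s * δ < s * (e * (1 + 1 / (2 * τ))) := mul_lt_mul_of_pos_left hδ h0
      _ = (s * (1 + 1 / (2 * τ))) * e := by ring
      _ ≤ 1 * e := mul_le_mul_of_nonneg_right h3 he.le
      _ = e := one_mul e

theorem vis_gap (P : Par m n α τ w) {v : ℂ} (hv : v ∈ FF m n w τ) {i k : ℕ} (hi : i < m)
    (hk : k + 1 < n) (h1 : hh τ (2 * i + 1) ≤ v.im ∧ v.im ≤ hh τ (2 * i + 1) + τ)
    (h2 : k + 1 - w < v.re ∧ v.re < k + 1) :
    Ioo (v.re - (v.re - (k + 1 - w)) * (1 + 1 / (2 * τ)))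
        (v.re + (k + 1 - v.re) * (1 + 1 / (2 * τ))) ×ℂ
      Ioo (hh τ (2 * i + 1) + τ + 1 / 2) (hh τ (2 * i + 1) + τ + 1) ⊆ vis (FF m n w τ) v := by
  intro v' hv' z hz
  have hτ := P.hτ
  have hτ1 := P.hτ1
  have hw := P.w_pos
  have hα := P.hα
  have hα1 := P.hα1
  have hwe := P.hw
  have hkn : (k : ℝ) + 2 ≤ n := by exact_mod_cast hk
  have hk0 : (0 : ℝ) ≤ k := Nat.cast_nonneg k
  have hw1 := P.w_le
  obtain ⟨⟨x1, x2⟩, y1, y2⟩ := hv'
  have hwt : w * (1 / (2 * τ)) = α / 2 := by rw [hwe]; field_simp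
  have htop : hh τ (2 * i + 1) + τ + 1 ≤ hh τ (2 * m) := by
    have := hh_lt' hτ (show 2 * i + 1 < 2 * m by omega)
    linarith
  have hrow := hh_ge hτ (2 * i + 1)
  have e0 : (v.re - (k + 1 - w)) * (1 + 1 / (2 * τ)) ≤ 1 / 2 := by
    have h3 : (v.re - (k + 1 - w)) * (1 + 1 / (2 * τ)) ≤ w * (1 + 1 / (2 * τ)) :=
      mul_le_mul_of_nonneg_right (by linarith) (by positivity)
    have h4 : w * (1 + 1 / (2 * τ)) = w + α / 2 := by rw [mul_add, hwt, mul_one]
    linarith
  have e1 : (k + 1 - v.re) * (1 + 1 / (2 * τ)) ≤ 1 / 2 := by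
    have h3 : (k + 1 - v.re) * (1 + 1 / (2 * τ)) ≤ w * (1 + 1 / (2 * τ)) :=
      mul_le_mul_of_nonneg_right (by linarith) (by positivity)
    have h4 : w * (1 + 1 / (2 * τ)) = w + α / 2 := by rw [mul_add, hwt, mul_one]
    linarith
  have hR : v' ∈ RR m n τ := ⟨⟨by linarith, by linarith⟩, by linarith, by linarith⟩
  have hzR := RR_seg hz hv.1 hR
  obtain ⟨s, s0, s1, h4, h5, h6⟩ := seg_coord hz
  by_cases hzt : z.im ≤ hh τ (2 * i + 1) + τ
  · have hsp : s * ((hh τ (2 * i + 1) + τ - v.im) + (v'.im - (hh τ (2 * i + 1) + τ))) ≤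
        hh τ (2 * i + 1) + τ - v.im := by
      have : s * (v'.im - v.im) ≤ hh τ (2 * i + 1) + τ - v.im := by linarith
      linarith
    have k1 := gap_ineq (s := s) (e := k + 1 - v.re) (δ := v'.re - v.re) hτ s0
      s1 (by linarith [h1.1]) (by linarith) hsp (by linarith [h2.2])
      (by linarith)
    have k2 := gap_ineq (s := s) (e := v.re - (k + 1 - w)) (δ := v.re - v'.re) hτ s0
      s1 (by linarith [h1.1]) (by linarith) hsp (by linarith [h2.1])
      (by linarith)
    refine ⟨hzR, not_ob P (i := i) (k := k) ⟨?_, hzt⟩ ⟨?_, ?_⟩⟩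
    · rw [h5]
      have : 0 ≤ s * (v'.im - v.im) := mul_nonneg s0 (by linarith [h1.2])
      linarith [h1.1]
    · rw [h4]
      have : s * (v'.re - v.re) = - (s * (v.re - v'.re)) := by ring
      linarith
    · rw [h4]; linarith
  · have hzt' := not_le.1 hzt
    have b1 : (((2 * i + 1 + 1 : ℕ) : ℝ)) * (1 + τ) < z.im := by
      have : (((2 * i + 1 + 1 : ℕ) : ℝ)) * (1 + τ) = hh τ (2 * i + 1) + τ := by
        unfold hh; push_cast; ring
      rw [this]; exact hzt'
    have b2 : z.im < hh τ (2 * i + 1 + 1) := by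
      rw [hh_succ, h5]
      have : v.im + s * (v'.im - v.im) ≤ max v.im v'.im := by
        rcases le_total v.im v'.im with h | h
        · rw [max_eq_right h]; nlinarith
        · rw [max_eq_left h]; nlinarith
      have h7 : max v.im v'.im < hh τ (2 * i + 1) + 1 + τ :=
        max_lt (by linarith [h1.2]) (by linarith)
      linarith
    exact F2 P hzR fun s _ => slab_not_row hτ b1 b2

/-- every point of the free space sees area at least `α / 4` -/
theorem vis_area (P : Par m n α τ w) {v : ℂ} (hv : v ∈ FF m n w τ) :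
    α / 4 ≤ area (vis (FF m n w τ) v) := by
  have hτ := P.hτ
  have hα := P.hα
  have hα1 := P.hα1
  have hn := P.n_ge
  have hwe := P.hw
  have hH := hh_ge hτ (2 * m)
  rcases locate P hv with h | h | h | ⟨i, hi, k, hk, h1, h2⟩
  · have := area_vis_ge (by norm_num) (by linarith) (vis_left P hv h)
    linarith
  · have := area_vis_ge (by linarith) (by linarith) (vis_right P hv h)
    have e : ((n : ℝ) + 1 - n) = 1 := by ring
    rw [e] at this
    linarith
  · obtain ⟨r, hr, h1, h2⟩ := find_slab P hv h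
    have h3 : (r : ℝ) * (1 + τ) ≤ hh τ r := by unfold hh; linarith
    have := area_vis_ge (by linarith) h3 (vis_slab P hv hr h1 h2)
    have e : hh τ r - (r : ℝ) * (1 + τ) = 1 := by unfold hh; ring
    rw [e] at this
    linarith
  · have hp : 0 ≤ 1 + 1 / (2 * τ) := by positivity
    have a1 : 0 ≤ (v.re - (k + 1 - w)) * (1 + 1 / (2 * τ)) := mul_nonneg (by linarith [h2.1]) hp
    have a2 : 0 ≤ (k + 1 - v.re) * (1 + 1 / (2 * τ)) := mul_nonneg (by linarith [h2.2]) hp
    have := area_vis_ge (by linarith) (by linarith) (vis_gap P hv hi hk h1 h2)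
    refine le_trans ?_ this
    have hwt : w * (1 / (2 * τ)) = α / 2 := by rw [hwe]; field_simp
    have e : (v.re + (k + 1 - v.re) * (1 + 1 / (2 * τ)) -
        (v.re - (v.re - (k + 1 - w)) * (1 + 1 / (2 * τ)))) *
        (hh τ (2 * i + 1) + τ + 1 - (hh τ (2 * i + 1) + τ + 1 / 2)) =
        (w + w * (1 / (2 * τ))) / 2 := by ring
    rw [e, hwt]
    linarith [P.w_pos]

end Pool.Agent.X150.EV
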