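import Pool.Agent.X150.EV.Rect

/-! The pattern of obstacles: solid rows alternating with rows that have narrow gaps. -/

set_option autoImplicit false
open Set MeasureTheory Topology

namespace Pool.Agent.X150.EV

/-- height of the bottom of row `r` -/
def hh (τ : ℝ) (r : ℕ) : ℝ := 1 + r * (1 + τ)

/-- the obstacles: `m` long blocks, and `m` rows of `n` bricks -/
def ob (m n : ℕ) (w τ : ℝ) : Fin m ⊕ (Fin m × Fin n) → Set ℂ
  | Sum.inl i => rect 0 (n - w) (hh τ (2 * i)) (hh τ (2 * i) + τ)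
  | Sum.inr (i, k) => rect k (k + 1 - w) (hh τ (2 * i + 1)) (hh τ (2 * i + 1) + τ)

/-- admissible parameters; `w` is the width of the gaps and `τ` the thickness of the rows -/
structure Par (m n : ℕ) (α τ w : ℝ) : Prop where
  hm : 2 ≤ m
  hn : n + 1 = 2 * m
  hα : 0 < α
  hα1 : α ≤ 1 / 100
  hτ : 0 < τ
  hτ1 : τ ≤ 1
  hw : w = α * τ

/-- the free space -/
def FF (m n : ℕ) (w τ : ℝ) : Set ℂ := free (-1) (n + 1) 0 (hh τ (2 * m)) (ob m n w τ)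

/-- the rectangle -/
def RR (m n : ℕ) (τ : ℝ) : Set ℂ := rect (-1) (n + 1) 0 (hh τ (2 * m))

variable {m n : ℕ} {α τ w : ℝ}

namespace Par

theorem w_pos (P : Par m n α τ w) : 0 < w := by rw [P.hw]; exact mul_pos P.hα P.hτ

theorem w_le (P : Par m n α τ w) : w ≤ 1 / 100 := by
  rw [P.hw]
  have := P.hα1; have := P.hτ1; have := P.hα; have := P.hτ
  nlinarith

theorem n_ge (P : Par m n α τ w) : (3 : ℝ) ≤ n := by
  have h1 := P.hm; have h2 := P.hn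
  have : 3 ≤ n := by omega
  exact_mod_cast this

end Par

theorem hh_succ (r : ℕ) : hh τ (r + 1) = hh τ r + 1 + τ := by unfold hh; push_cast; ring

theorem hh_ge (hτ : 0 < τ) (r : ℕ) : 1 ≤ hh τ r := by
  unfold hh
  have : 0 ≤ (r : ℝ) * (1 + τ) := by positivity
  linarith

theorem hh_lt (hτ : 0 < τ) {r s : ℕ} (h : r < s) : hh τ r + τ < hh τ s := by
  unfold hh
  have : (r : ℝ) + 1 ≤ s := by exact_mod_cast h
  nlinarith

theorem hh_lt' (hτ : 0 < τ) {r s : ℕ} (h : r < s) : hh τ r + 1 + τ ≤ hh τ s := by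
  unfold hh
  have : (r : ℝ) + 1 ≤ s := by exact_mod_cast h
  nlinarith

theorem row_unique (hτ : 0 < τ) {r s : ℕ} {y : ℝ} (h1 : hh τ r ≤ y ∧ y ≤ hh τ r + τ)
    (h2 : hh τ s ≤ y ∧ y ≤ hh τ s + τ) : r = s := by
  rcases lt_trichotomy r s with h | h | h
  · linarith [hh_lt hτ h, h1.2, h2.1]
  · exact h
  · linarith [hh_lt hτ h, h2.2, h1.1]

/-- heights in the open slab below row `r` are in no row -/
theorem slab_not_row (hτ : 0 < τ) {r s : ℕ} {y : ℝ} (h1 : (r : ℝ) * (1 + τ) < y) (h2 : y < hh τ r) :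
    ¬ (hh τ s ≤ y ∧ y ≤ hh τ s + τ) := by
  rintro ⟨h3, h4⟩
  rcases lt_or_ge s r with h | h
  · have : hh τ s + τ ≤ r * (1 + τ) := by
      unfold hh
      have : (s : ℝ) + 1 ≤ r := by exact_mod_cast h
      nlinarith
    linarith
  · rcases h.eq_or_lt with h | h
    · subst h; linarith
    · linarith [hh_lt hτ h]

theorem mem_ob {z : ℂ} (h : z ∈ ⋃ i, ob m n w τ i) :
    (∃ i < m, z ∈ rect 0 (n - w) (hh τ (2 * i)) (hh τ (2 * i) + τ)) ∨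
      ∃ i < m, ∃ k < n, z ∈ rect k (k + 1 - w) (hh τ (2 * i + 1)) (hh τ (2 * i + 1) + τ) := by
  rw [mem_iUnion] at h
  obtain ⟨i, hi⟩ := h
  rcases i with i | ⟨i, k⟩
  · exact Or.inl ⟨i, i.2, hi⟩
  · exact Or.inr ⟨i, i.2, k, k.2, hi⟩

theorem ob_row {z : ℂ} (h : z ∈ ⋃ i, ob m n w τ i) :
    (0 ≤ z.re ∧ z.re ≤ n - w) ∧ ∃ r < 2 * m, hh τ r ≤ z.im ∧ z.im ≤ hh τ r + τ := by
  rcases mem_ob h with ⟨i, hi, h1, h2⟩ | ⟨i, hi, k, hk, h1, h2⟩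
  · exact ⟨h1, 2 * i, by omega, h2⟩
  · have : (k : ℝ) + 1 ≤ n := by exact_mod_cast hk
    have : (0 : ℝ) ≤ k := Nat.cast_nonneg k
    exact ⟨⟨by linarith [h1.1], by linarith [h1.2]⟩, 2 * i + 1, by omega, h2⟩

theorem F1 (P : Par m n α τ w) {z : ℂ} (hz : z ∈ RR m n τ) (h : z.re < 0 ∨ n - w < z.re) :
    z ∈ FF m n w τ := by
  refine ⟨hz, fun ho => ?_⟩
  obtain ⟨h1, _⟩ := ob_row ho
  rcases h with h | h
  · linarith [h1.1]
  · linarith [h1.2]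

theorem F2 (P : Par m n α τ w) {z : ℂ} (hz : z ∈ RR m n τ)
    (h : ∀ r < 2 * m, ¬ (hh τ r ≤ z.im ∧ z.im ≤ hh τ r + τ)) : z ∈ FF m n w τ := by
  refine ⟨hz, fun ho => ?_⟩
  obtain ⟨_, r, hr, h1⟩ := ob_row ho
  exact h r hr h1

theorem not_ob (P : Par m n α τ w) {z : ℂ} {i k : ℕ}
    (h1 : hh τ (2 * i + 1) ≤ z.im ∧ z.im ≤ hh τ (2 * i + 1) + τ)
    (h2 : k + 1 - w < z.re ∧ z.re < k + 1) : z ∉ ⋃ i, ob m n w τ i := by
  intro ho
  rcases mem_ob ho with ⟨i', hi, _, h4⟩ | ⟨i', hi, k', hk, h3, h4⟩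
  · have := row_unique P.hτ h1 h4
    omega
  · rcases lt_or_ge k k' with h | h
    · have : (k : ℝ) + 1 ≤ k' := by exact_mod_cast h
      linarith [h3.1, h2.2]
    · have : (k' : ℝ) ≤ k := by exact_mod_cast h
      linarith [h3.2, h2.1]

theorem locate (P : Par m n α τ w) {v : ℂ} (hv : v ∈ FF m n w τ) :
    v.re < 0 ∨ n - w < v.re ∨ (∀ r < 2 * m, ¬ (hh τ r ≤ v.im ∧ v.im ≤ hh τ r + τ)) ∨
      ∃ i < m, ∃ k : ℕ, k + 1 < n ∧ (hh τ (2 * i + 1) ≤ v.im ∧ v.im ≤ hh τ (2 * i + 1) + τ) ∧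
        (k + 1 - w < v.re ∧ v.re < k + 1) := by
  by_contra hc
  push Not at hc
  obtain ⟨h1, h2, ⟨r, hr, h3⟩, h4⟩ := hc
  have hw := P.w_pos
  rcases Nat.even_or_odd' r with ⟨i, rfl | rfl⟩
  · refine hv.2 (mem_iUnion.2 ⟨Sum.inl ⟨i, by omega⟩, ⟨⟨h1, h2⟩, h3⟩⟩)
  · have hi : i < m := by omega
    obtain hk0 := Nat.floor_le h1
    obtain hk1 := Nat.lt_floor_add_one v.re
    have hkn : ⌊v.re⌋₊ < n := by
      have : ((⌊v.re⌋₊ : ℕ) : ℝ) < n := by linarith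
      exact_mod_cast this
    have h5 : ((⌊v.re⌋₊ : ℕ) : ℝ) + 1 - w < v.re := by
      by_contra h6
      exact hv.2 (mem_iUnion.2 ⟨Sum.inr (⟨i, hi⟩, ⟨⌊v.re⌋₊, hkn⟩), ⟨⟨hk0, not_lt.1 h6⟩, h3⟩⟩)
    have h6 : ⌊v.re⌋₊ + 1 < n := by
      have : ((⌊v.re⌋₊ : ℕ) : ℝ) + 1 < n := by linarith
      exact_mod_cast this
    exact absurd hk1 (not_lt.2 (h4 i hi _ h6 h3 h5))

theorem vis_sub {F : Set ℂ} {v : ℂ} : vis F v ⊆ F := fun _ h => h (right_mem_segment ℝ _ _)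

theorem area_Ioo {a b c d : ℝ} (hab : a ≤ b) (hcd : c ≤ d) :
    area (Ioo a b ×ℂ Ioo c d) = (b - a) * (d - c) := by
  rw [area, volume_reProdIm, Real.volume_Ioo, Real.volume_Ioo, ENNReal.toReal_mul,
    ENNReal.toReal_ofReal (by linarith), ENNReal.toReal_ofReal (by linarith)]

theorem area_vis_ge {v : ℂ} {a b c d : ℝ} (hab : a ≤ b) (hcd : c ≤ d)
    (h : Ioo a b ×ℂ Ioo c d ⊆ vis (FF m n w τ) v) :
    (b - a) * (d - c) ≤ area (vis (FF m n w τ) v) := by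
  rw [← area_Ioo hab hcd]
  exact area_mono h (vis_sub.trans sdiff_subset)

/-- points of a segment in coordinates -/
theorem seg_coord {v v' z : ℂ} (h : z ∈ segment ℝ v v') : ∃ s : ℝ, 0 ≤ s ∧ s ≤ 1 ∧
    z.re = v.re + s * (v'.re - v.re) ∧ z.im = v.im + s * (v'.im - v.im) ∧
    z = v + (s : ℂ) * (v' - v) := by
  rw [segment_eq_image'] at h
  obtain ⟨s, hs, rfl⟩ := h
  refine ⟨s, hs.1, hs.2, ?_, ?_, ?_⟩
  · simp
  · simp
  · simp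

theorem RR_seg {v v' z : ℂ} (h : z ∈ segment ℝ v v') (hv : v ∈ RR m n τ) (hv' : v' ∈ RR m n τ) :
    z ∈ RR m n τ := by
  obtain ⟨s, h0, h1, h2, h3, -⟩ := seg_coord h
  obtain ⟨⟨a1, a2⟩, a3, a4⟩ := hv
  obtain ⟨⟨b1, b2⟩, b3, b4⟩ := hv'
  refine ⟨⟨?_, ?_⟩, ?_, ?_⟩
  · rw [h2]; nlinarith
  · rw [h2]; nlinarith
  · rw [h3]; nlinarith
  · rw [h3]; nlinarith

theorem vis_left (P : Par m n α τ w) {v : ℂ} (hv : v ∈ FF m n w τ) (h : v.re < 0) :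
    Ioo (-1 : ℝ) 0 ×ℂ Ioo 0 (hh τ (2 * m)) ⊆ vis (FF m n w τ) v := by
  intro v' hv' z hz
  have hn := P.n_ge
  have hR : v' ∈ RR m n τ := ⟨⟨hv'.1.1.le, by linarith [hv'.1.2]⟩, hv'.2.1.le, hv'.2.2.le⟩
  refine F1 P (RR_seg hz hv.1 hR) (Or.inl ?_)
  obtain ⟨s, h0, h1, h2, -, -⟩ := seg_coord hz
  have h3 : v'.re < 0 := hv'.1.2
  rw [h2]
  rcases h0.eq_or_lt with h0 | h0
  · rw [← h0]; linarith
  · nlinarith

theorem vis_right (P : Par m n α τ w) {v : ℂ} (hv : v ∈ FF m n w τ) (h : n - w < v.re) :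
    Ioo (n : ℝ) (n + 1) ×ℂ Ioo 0 (hh τ (2 * m)) ⊆ vis (FF m n w τ) v := by
  intro v' hv' z hz
  have hn := P.n_ge
  have hw := P.w_pos
  have hR : v' ∈ RR m n τ := ⟨⟨by linarith [hv'.1.1], hv'.1.2.le⟩, hv'.2.1.le, hv'.2.2.le⟩
  refine F1 P (RR_seg hz hv.1 hR) (Or.inr ?_)
  obtain ⟨s, h0, h1, h2, -, -⟩ := seg_coord hz
  have h3 : (n : ℝ) < v'.re := hv'.1.1
  rw [h2]
  rcases h0.eq_or_lt with h0 | h0
  · rw [← h0]; linarith
  · nlinarith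

theorem hh_mono (hτ : 0 < τ) {r s : ℕ} (h : r ≤ s) : hh τ r ≤ hh τ s := by
  unfold hh
  have : (r : ℝ) ≤ s := by exact_mod_cast h
  nlinarith

theorem vis_slab (P : Par m n α τ w) {v : ℂ} (hv : v ∈ FF m n w τ) {r : ℕ} (hr : r ≤ 2 * m)
    (h1 : r * (1 + τ) ≤ v.im) (h2 : v.im ≤ hh τ r) :
    Ioo (-1 : ℝ) (n + 1) ×ℂ Ioo ((r : ℝ) * (1 + τ)) (hh τ r) ⊆ vis (FF m n w τ) v := by
  intro v' hv' z hz
  have hτ := P.hτ
  have hr0 : (0 : ℝ) ≤ r * (1 + τ) := by positivity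
  have hR : v' ∈ RR m n τ := ⟨⟨hv'.1.1.le, hv'.1.2.le⟩, hr0.trans hv'.2.1.le,
    hv'.2.2.le.trans (hh_mono hτ hr)⟩
  obtain ⟨s, h0, h3, h4, h5, h6⟩ := seg_coord hz
  rcases h0.eq_or_lt with h0 | h0
  · rw [← h0] at h6
    have : z = v := by rw [h6]; simp
    rw [this]; exact hv
  · have a1 : (r : ℝ) * (1 + τ) < v'.im := hv'.2.1
    have a2 : v'.im < hh τ r := hv'.2.2
    have b1 : (r : ℝ) * (1 + τ) < z.im := by rw [h5]; nlinarith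
    have b2 : z.im < hh τ r := by rw [h5]; nlinarith
    exact F2 P (RR_seg hz hv.1 hR) fun s _ => slab_not_row hτ b1 b2

theorem find_slab (P : Par m n α τ w) {v : ℂ} (hv : v ∈ FF m n w τ)
    (h : ∀ r < 2 * m, ¬ (hh τ r ≤ v.im ∧ v.im ≤ hh τ r + τ)) :
    ∃ r ≤ 2 * m, r * (1 + τ) ≤ v.im ∧ v.im ≤ hh τ r := by
  have hτ := P.hτ
  have hp : 0 < 1 + τ := by linarith
  have hy0 : 0 ≤ v.im := hv.1.2.1
  have hy1 : v.im ≤ hh τ (2 * m) := hv.1.2.2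
  have h1 := Nat.floor_le (div_nonneg hy0 hp.le)
  have h2 := Nat.lt_floor_add_one (v.im / (1 + τ))
  rw [le_div_iff₀ hp] at h1
  rw [div_lt_iff₀ hp] at h2
  set r := ⌊v.im / (1 + τ)⌋₊ with hr
  have hr2 : r ≤ 2 * m := by
    by_contra hc
    have : ((2 * m : ℕ) : ℝ) + 1 ≤ r := by exact_mod_cast not_le.1 hc
    have h3 : hh τ (2 * m) < r * (1 + τ) := by
      unfold hh
      nlinarith
    linarith
  refine ⟨r, hr2, h1, ?_⟩
  rcases hr2.eq_or_lt with h3 | h3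
  · rw [h3]; exact hy1
  · by_contra h4
    refine h r h3 ⟨(not_le.1 h4).le, ?_⟩
    have : ((r : ℝ) + 1) * (1 + τ) = hh τ r + τ := by unfold hh; ring
    linarith

end Pool.Agent.X150.EV
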