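import Pool.Agent.X150.EV.Defs

/-! Elementary facts about rectangles. -/

set_option autoImplicit false
open Set MeasureTheory Topology
open scoped ENNReal

namespace Pool.Agent.X150.EV

variable {a b c d : ℝ}

theorem rect_eq : rect a b c d = Icc a b ×ℂ Icc c d := rfl

theorem isClosed_rect : IsClosed (rect a b c d) := by
  rw [rect_eq]; exact isClosed_Icc.reProdIm isClosed_Icc

theorem isCompact_rect : IsCompact (rect a b c d) := by
  rw [rect_eq]; exact isCompact_Icc.reProdIm isCompact_Icc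

theorem mem_frontier_rect (hab : a ≤ b) (hcd : c ≤ d) {z : ℂ} :
    z ∈ frontier (rect a b c d) ↔
      z ∈ rect a b c d ∧ (z.re = a ∨ z.re = b ∨ z.im = c ∨ z.im = d) := by
  rw [rect_eq, Complex.frontier_reProdIm, isClosed_Icc.closure_eq, isClosed_Icc.closure_eq,
    frontier_Icc hab, frontier_Icc hcd]
  simp only [mem_union, Complex.mem_reProdIm, mem_insert_iff, mem_singleton_iff]
  constructor
  · rintro (⟨h1, h2 | h2⟩ | ⟨h1 | h1, h2⟩)
    · exact ⟨⟨h1, by rw [h2]; exact ⟨le_rfl, hcd⟩⟩, Or.inr (Or.inr (Or.inl h2))⟩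
    · exact ⟨⟨h1, by rw [h2]; exact ⟨hcd, le_rfl⟩⟩, Or.inr (Or.inr (Or.inr h2))⟩
    · exact ⟨⟨by rw [h1]; exact ⟨le_rfl, hab⟩, h2⟩, Or.inl h1⟩
    · exact ⟨⟨by rw [h1]; exact ⟨hab, le_rfl⟩, h2⟩, Or.inr (Or.inl h1)⟩
  · rintro ⟨⟨h1, h2⟩, h | h | h | h⟩
    · exact Or.inr ⟨Or.inl h, h2⟩
    · exact Or.inr ⟨Or.inr h, h2⟩
    · exact Or.inl ⟨h1, Or.inl h⟩
    · exact Or.inl ⟨h1, Or.inr h⟩

theorem volume_reProdIm (s t : Set ℝ) : volume (s ×ℂ t) = volume s * volume t := by
  have h : s ×ℂ t = Complex.measurableEquivRealProd ⁻¹' (s ×ˢ t) := by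
    ext z
    simp [Complex.mem_reProdIm, Complex.measurableEquivRealProd_apply]
  rw [h, Complex.volume_preserving_equiv_real_prod.measure_preimage_equiv,
    Measure.volume_eq_prod, Measure.prod_prod]

theorem area_rect (hab : a ≤ b) (hcd : c ≤ d) : area (rect a b c d) = (b - a) * (d - c) := by
  rw [area, rect_eq, volume_reProdIm, Real.volume_Icc, Real.volume_Icc, ENNReal.toReal_mul,
    ENNReal.toReal_ofReal (by linarith), ENNReal.toReal_ofReal (by linarith)]

theorem area_mono {S T : Set ℂ} (h : S ⊆ T) {a b c d : ℝ} (hT : T ⊆ rect a b c d) :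
    area S ≤ area T :=
  ENNReal.toReal_mono (ne_top_of_le_ne_top (isCompact_rect (a := a) (b := b) (c := c)
    (d := d)).measure_lt_top.ne (measure_mono hT)) (measure_mono h)

/-- `K` equally spaced intervals -/
def bars (x p l : ℝ) (K : ℕ) : Set ℝ := ⋃ k ∈ Finset.range K, Ioo (x + k * p) (x + k * p + l)

theorem volume_bars {x p l : ℝ} (hl : 0 ≤ l) (hp : l ≤ p) (K : ℕ) :
    volume (bars x p l K) = ENNReal.ofReal (K * l) := by
  unfold bars
  rw [measure_biUnion_finset]
  · simp only [Real.volume_Ioo, add_sub_cancel_left, Finset.sum_const, Finset.card_range,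
      nsmul_eq_mul]
    rw [ENNReal.ofReal_mul (Nat.cast_nonneg K), ENNReal.ofReal_natCast]
  · intro i _ j _ hij
    rw [Function.onFun, Set.disjoint_left]
    intro y h1 h2
    rcases lt_or_gt_of_ne hij with h | h
    · have : (i : ℝ) + 1 ≤ j := by exact_mod_cast h
      nlinarith [h1.1, h1.2, h2.1, h2.2]
    · have : (j : ℝ) + 1 ≤ i := by exact_mod_cast h
      nlinarith [h1.1, h1.2, h2.1, h2.2]
  · intro i _; exact measurableSet_Ioo

theorem area_bars {x p l y q r : ℝ} (hl : 0 ≤ l) (hp : l ≤ p) (hr : 0 ≤ r) (hq : r ≤ q) (K J : ℕ) :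
    area (bars x p l K ×ℂ bars y q r J) = (K * l) * (J * r) := by
  rw [area, volume_reProdIm, volume_bars hl hp, volume_bars hr hq, ENNReal.toReal_mul,
    ENNReal.toReal_ofReal (by positivity), ENNReal.toReal_ofReal (by positivity)]

open Measure in
/-- length of a horizontal segment -/
theorem length_hor (p q y : ℝ) :
    μH[1] {z : ℂ | (p ≤ z.re ∧ z.re ≤ q) ∧ z.im = y} ≤ ENNReal.ofReal (q - p) := by
  have hi : Isometry fun x : ℝ => (⟨x, y⟩ : ℂ) := by
    refine Isometry.of_dist_eq fun x x' => ?_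
    rw [Complex.dist_eq, Real.dist_eq]
    have : (⟨x, y⟩ : ℂ) - ⟨x', y⟩ = ((x - x' : ℝ) : ℂ) := by
      apply Complex.ext <;> simp
    rw [this, Complex.norm_real, Real.norm_eq_abs]
  have h1 : {z : ℂ | (p ≤ z.re ∧ z.re ≤ q) ∧ z.im = y} ⊆ (fun x : ℝ => (⟨x, y⟩ : ℂ)) '' Icc p q := by
    rintro z ⟨h, h'⟩
    exact ⟨z.re, h, by apply Complex.ext <;> simp [h']⟩
  refine (measure_mono h1).trans ?_
  rw [hi.hausdorffMeasure_image (Or.inl zero_le_one), hausdorffMeasure_real, Real.volume_Icc]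

open Measure in
/-- length of a vertical segment -/
theorem length_ver (p q x : ℝ) :
    μH[1] {z : ℂ | z.re = x ∧ p ≤ z.im ∧ z.im ≤ q} ≤ ENNReal.ofReal (q - p) := by
  have hi : Isometry fun y : ℝ => (⟨x, y⟩ : ℂ) := by
    refine Isometry.of_dist_eq fun y y' => ?_
    rw [Complex.dist_eq, Real.dist_eq]
    have : (⟨x, y⟩ : ℂ) - ⟨x, y'⟩ = ((y - y' : ℝ) : ℂ) * Complex.I := by
      apply Complex.ext <;> simp
    rw [this, norm_mul, Complex.norm_I, mul_one, Complex.norm_real, Real.norm_eq_abs]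
  have h1 : {z : ℂ | z.re = x ∧ p ≤ z.im ∧ z.im ≤ q} ⊆ (fun y : ℝ => (⟨x, y⟩ : ℂ)) '' Icc p q := by
    rintro z ⟨h, h'⟩
    exact ⟨z.im, h', by apply Complex.ext <;> simp [h]⟩
  refine (measure_mono h1).trans ?_
  rw [hi.hausdorffMeasure_image (Or.inl zero_le_one), hausdorffMeasure_real, Real.volume_Icc]

/-- the four sides of a rectangle as arcs -/
noncomputable def side (a b c d : ℝ) : Fin 4 → ℝ → ℂ
  | 0 => fun t => ⟨a + t * (b - a), c⟩
  | 1 => fun t => ⟨a + t * (b - a), d⟩
  | 2 => fun t => ⟨a, c + t * (d - c)⟩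
  | 3 => fun t => ⟨b, c + t * (d - c)⟩

theorem hasDerivAt_mk (p q r s t : ℝ) :
    HasDerivAt (fun t : ℝ => (⟨p + t * q, r + t * s⟩ : ℂ)) ⟨q, s⟩ t := by
  have e : (fun t : ℝ => (⟨p + t * q, r + t * s⟩ : ℂ)) =
      fun t : ℝ => (⟨p, r⟩ : ℂ) + (t : ℂ) * ⟨q, s⟩ := by
    funext x
    apply Complex.ext <;> simp
  rw [e]
  have h1 : HasDerivAt (fun t : ℝ => (t : ℂ)) 1 t := Complex.ofRealCLM.hasDerivAt
  simpa using (h1.mul_const (⟨q, s⟩ : ℂ)).const_add (⟨p, r⟩ : ℂ)

theorem contDiff_mk (p q r s : ℝ) : ContDiff ℝ 2 (fun t : ℝ => (⟨p + t * q, r + t * s⟩ : ℂ)) := by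
  have e : (fun t : ℝ => (⟨p + t * q, r + t * s⟩ : ℂ)) =
      fun t : ℝ => (⟨p, r⟩ : ℂ) + (t : ℂ) * ⟨q, s⟩ := by
    funext x
    apply Complex.ext <;> simp
  rw [e]
  have h1 : ContDiff ℝ 2 fun t : ℝ => (t : ℂ) := Complex.ofRealCLM.contDiff
  exact contDiff_const.add (h1.mul contDiff_const)

theorem smooth_rect (hab : a < b) (hcd : c < d) : PiecewiseSmooth (rect a b c d) := by
  refine ⟨4, side a b c d, ?_, ?_⟩
  · intro i
    have key : ∃ p q r s : ℝ, side a b c d i = (fun t : ℝ => (⟨p + t * q, r + t * s⟩ : ℂ)) ∧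
        (q ≠ 0 ∨ s ≠ 0) := by
      fin_cases i
      · exact ⟨a, b - a, c, 0, by funext t; simp [side], Or.inl (by linarith)⟩
      · exact ⟨a, b - a, d, 0, by funext t; simp [side], Or.inl (by linarith)⟩
      · exact ⟨a, 0, c, d - c, by funext t; simp [side], Or.inr (by linarith)⟩
      · exact ⟨b, 0, c, d - c, by funext t; simp [side], Or.inr (by linarith)⟩
    obtain ⟨p, q, r, s, e, hne⟩ := key
    rw [e]
    refine ⟨contDiff_mk p q r s, ?_, ?_⟩
    · intro x _ y _ hxy
      have h1 := congrArg Complex.re hxy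
      have h2 := congrArg Complex.im hxy
      simp only [add_right_inj] at h1 h2
      rcases hne with h | h
      · exact mul_right_cancel₀ h h1
      · exact mul_right_cancel₀ h h2
    · intro t _
      rw [(hasDerivAt_mk p q r s t).deriv]
      intro h0
      have h1 := congrArg Complex.re h0
      have h2 := congrArg Complex.im h0
      simp only [Complex.zero_re, Complex.zero_im] at h1 h2
      rcases hne with h | h
      · exact h h1
      · exact h h2
  · ext z
    rw [mem_frontier_rect hab.le hcd.le, mem_iUnion]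
    have hb : 0 < b - a := by linarith
    have hd : 0 < d - c := by linarith
    constructor
    · rintro ⟨⟨h1, h2⟩, h⟩
      have t1 : (z.re - a) / (b - a) ∈ Icc (0 : ℝ) 1 :=
        ⟨div_nonneg (by linarith [h1.1]) hb.le, by rw [div_le_one hb]; linarith [h1.2]⟩
      have t2 : (z.im - c) / (d - c) ∈ Icc (0 : ℝ) 1 :=
        ⟨div_nonneg (by linarith [h2.1]) hd.le, by rw [div_le_one hd]; linarith [h2.2]⟩
      have e1 : a + (z.re - a) / (b - a) * (b - a) = z.re := by field_simp; ring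
      have e2 : c + (z.im - c) / (d - c) * (d - c) = z.im := by field_simp; ring
      rcases h with h | h | h | h
      · exact ⟨2, _, t2, by simp only [side, e2]; rw [← h]⟩
      · exact ⟨3, _, t2, by simp only [side, e2]; rw [← h]⟩
      · exact ⟨0, _, t1, by simp only [side, e1]; rw [← h]⟩
      · exact ⟨1, _, t1, by simp only [side, e1]; rw [← h]⟩
    · rintro ⟨i, t, ht, rfl⟩
      have h1 : 0 ≤ t * (b - a) := mul_nonneg ht.1 hb.le
      have h2 : t * (b - a) ≤ b - a := mul_le_of_le_one_left hb.le ht.2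
      have h3 : 0 ≤ t * (d - c) := mul_nonneg ht.1 hd.le
      have h4 : t * (d - c) ≤ d - c := mul_le_of_le_one_left hd.le ht.2
      fin_cases i
      · exact ⟨⟨⟨by simp [side]; linarith, by simp [side]; linarith⟩,
          by simp [side], by simp [side]; linarith⟩, by simp [side]⟩
      · exact ⟨⟨⟨by simp [side]; linarith, by simp [side]; linarith⟩,
          by simp [side]; linarith, by simp [side]⟩, by simp [side]⟩
      · exact ⟨⟨⟨by simp [side], by simp [side]; linarith⟩,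
          by simp [side]; linarith, by simp [side]; linarith⟩, by simp [side]⟩
      · exact ⟨⟨⟨by simp [side]; linarith, by simp [side]⟩,
          by simp [side]; linarith, by simp [side]; linarith⟩, by simp [side]⟩

end Pool.Agent.X150.EV
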