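import Pool.Agent.X150.EV.Bdry

/-! The boundary visible from the middle of a gap. -/

set_option autoImplicit false
open Set MeasureTheory Topology
open scoped ENNReal

namespace Pool.Agent.X150.EV

variable {m n : ℕ} {α τ w : ℝ}

/-- `v` lies in the middle part of gap `k` of row `2 i + 1` -/
structure Mid (m n : ℕ) (w τ : ℝ) (i k : ℕ) (v : ℂ) : Prop where
  hi : i < m
  hk : k + 1 < n
  x1 : k + 1 - w < v.re
  x2 : v.re < k + 1
  y1 : hh τ (2 * i + 1) + τ / 4 < v.im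
  y2 : v.im < hh τ (2 * i + 1) + 3 * (τ / 4)

theorem seg_sub {v u p q : ℂ} (hp : p ∈ segment ℝ v u) (hq : q ∈ segment ℝ v p) :
    q ∈ segment ℝ v u :=
  (convex_segment v u).segment_subset (left_mem_segment ℝ v u) hp hq

/-- a point of the segment inside the row cannot be beyond the gap -/
theorem in_gap (P : Par m n α τ w) {i k : ℕ} {v u p : ℂ} (M : Mid m n w τ i k v)
    (hu : u ∈ visB (WW m n w τ) v) (hp : p ∈ segment ℝ v u)
    (hpy : hh τ (2 * i + 1) ≤ p.im ∧ p.im ≤ hh τ (2 * i + 1) + τ) :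
    k + 1 - w ≤ p.re ∧ p.re ≤ k + 1 := by
  have hτ := P.hτ
  have hseg : ∀ q : ℂ, (∃ s : ℝ, 0 ≤ s ∧ s ≤ 1 ∧ q.im = v.im + s * (p.im - v.im)) →
      hh τ (2 * i + 1) ≤ q.im ∧ q.im ≤ hh τ (2 * i + 1) + τ := by
    rintro q ⟨s, s0, s1, e⟩
    have h1 := M.y1
    have h2 := M.y2
    constructor
    · rw [e]; nlinarith [hpy.1]
    · rw [e]; nlinarith [hpy.2]
  constructor
  · by_contra hc
    obtain ⟨q, hq, hqr, hqu, hqv, hs⟩ := cross_re (v := v) (u := p) (c := k + 1 - w)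
      (Or.inr ⟨not_le.1 hc, M.x1⟩)
    have hqW := W2 P M.hi M.hk (hseg q hs) hqr
    rcases hu.2 q (seg_sub hp hq) hqW with h | h
    · -- q = u, then p lies between; p ∈ segment v u with p.re < q.re = u.re < v.re
      obtain ⟨s, s0, s1, h4, -, -⟩ := seg_coord hp
      rw [h] at hqr
      have h5 := M.x1
      have h6 := not_le.1 hc
      rw [h4, hqr] at h6
      nlinarith
    · exact hqv h
  · by_contra hc
    obtain ⟨q, hq, hqr, hqu, hqv, hs⟩ := cross_re (v := v) (u := p) (c := k + 1)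
      (Or.inl ⟨M.x2, not_le.1 hc⟩)
    have hqW := W1 P M.hi M.hk (hseg q hs) hqr
    rcases hu.2 q (seg_sub hp hq) hqW with h | h
    · obtain ⟨s, s0, s1, h4, -, -⟩ := seg_coord hp
      rw [h] at hqr
      have h5 := M.x2
      have h6 := not_le.1 hc
      rw [h4, hqr] at h6
      nlinarith
    · exact hqv h

/-- above the row: everything visible is on the next row, close to the gap -/
theorem seen_up (P : Par m n α τ w) {i k : ℕ} {v u : ℂ} (M : Mid m n w τ i k v)
    (hu : u ∈ visB (WW m n w τ) v) (hb : hh τ (2 * i + 1) + τ < u.im) :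
    (k + 1 - w - 4 * α ≤ u.re ∧ u.re ≤ k + 1 + 4 * α) ∧ u.im = hh τ (2 * i + 1) + τ + 1 := by
  have hτ := P.hτ
  have hα := P.hα
  have hα1 := P.hα1
  have hw1 := P.w_le
  have hw0 := P.w_pos
  have hkn : (k : ℝ) + 2 ≤ n := by exact_mod_cast M.hk
  have hk0 : (0 : ℝ) ≤ k := Nat.cast_nonneg k
  have my1 := M.y1
  have my2 := M.y2
  have mx1 := M.x1
  have mx2 := M.x2
  have hrow := hh_ge hτ (2 * i + 1)
  obtain ⟨p, hp, hpi, -, -, hpe⟩ := cross_im (v := v) (u := u) (c := hh τ (2 * i + 1) + τ)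
    (Or.inl ⟨by linarith, hb⟩)
  have hpg := in_gap P M hu hp ⟨by rw [hpi]; linarith, by rw [hpi]⟩
  have hpx : |p.re - v.re| ≤ w := by rw [abs_le]; constructor <;> linarith [hpg.1, hpg.2]
  -- the bound for every point of the ray
  have ray : ∀ z : ℂ, (z.re - v.re) * (u.im - v.im) = (u.re - v.re) * (z.im - v.im) →
      hh τ (2 * i + 1) + τ ≤ z.im → z.im ≤ hh τ (2 * i + 1) + τ + 1 →
      k + 1 - w - 4 * α ≤ z.re ∧ z.re ≤ k + 1 + 4 * α := by
    intro z hz hz1 hz2
    have hpos : 0 < u.im - v.im := by linarith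
    have e : (z.re - v.re) * (hh τ (2 * i + 1) + τ - v.im) = (p.re - v.re) *
        ((hh τ (2 * i + 1) + τ - v.im) + (z.im - (hh τ (2 * i + 1) + τ))) := by
      apply mul_right_cancel₀ hpos.ne'
      calc (z.re - v.re) * (hh τ (2 * i + 1) + τ - v.im) * (u.im - v.im)
          = ((z.re - v.re) * (u.im - v.im)) * (hh τ (2 * i + 1) + τ - v.im) := by ring
        _ = ((u.re - v.re) * (z.im - v.im)) * (hh τ (2 * i + 1) + τ - v.im) := by rw [hz]
        _ = ((u.re - v.re) * (hh τ (2 * i + 1) + τ - v.im)) * (z.im - v.im) := by ring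
        _ = ((p.re - v.re) * (u.im - v.im)) * (z.im - v.im) := by rw [hpe]
        _ = _ := by ring
    have h1 := ray_bound hτ P.hw e hpx (by linarith) (by linarith) (by linarith)
    rw [abs_le] at h1
    constructor <;> linarith [hpg.1, hpg.2, h1.1, h1.2]
  have hT : hh τ (2 * i + 1 + 1) = hh τ (2 * i + 1) + τ + 1 := by rw [hh_succ]; ring
  have hb2 : u.im ≤ hh τ (2 * i + 1) + τ + 1 := by
    by_contra hc
    obtain ⟨q, hq, hqi, hqu, hqv, hqe⟩ := cross_im (v := v) (u := u)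
      (c := hh τ (2 * i + 1) + τ + 1) (Or.inl ⟨by linarith, not_le.1 hc⟩)
    have h1 := ray q (by rw [hqe, hqi]) (by rw [hqi]; linarith) (by rw [hqi])
    have hqW : q ∈ WW m n w τ := W3 P M.hi (by rw [hqi, hT])
      ⟨by linarith [h1.1], by linarith [h1.2]⟩
    rcases hu.2 q hq hqW with h | h
    · exact hqu h
    · exact hqv h
  have h2 := ray u rfl hb.le hb2
  refine ⟨h2, ?_⟩
  by_contra hc
  have hlt : u.im < hh τ (2 * i + 1) + τ + 1 := lt_of_le_of_ne hb2 hc
  refine W5 P hu.1 ⟨by linarith [h2.1], by linarith [h2.2]⟩ ⟨by linarith, ?_⟩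
    fun r _ => slab_not_row (r := 2 * i + 1 + 1) hτ ?_ ?_
  · have := hh_mono hτ (show 2 * i + 1 + 1 ≤ 2 * m by have := M.hi; omega)
    linarith
  · have : (((2 * i + 1 + 1 : ℕ) : ℝ)) * (1 + τ) = hh τ (2 * i + 1) + τ := by
      unfold hh; push_cast; ring
    rw [this]; exact hb
  · rw [hT]; exact hlt

/-- below the row -/
theorem seen_down (P : Par m n α τ w) {i k : ℕ} {v u : ℂ} (M : Mid m n w τ i k v)
    (hu : u ∈ visB (WW m n w τ) v) (hb : u.im < hh τ (2 * i + 1)) :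
    (k + 1 - w - 4 * α ≤ u.re ∧ u.re ≤ k + 1 + 4 * α) ∧ u.im = hh τ (2 * i + 1) - 1 := by
  have hτ := P.hτ
  have hα := P.hα
  have hα1 := P.hα1
  have hw1 := P.w_le
  have hw0 := P.w_pos
  have hkn : (k : ℝ) + 2 ≤ n := by exact_mod_cast M.hk
  have hk0 : (0 : ℝ) ≤ k := Nat.cast_nonneg k
  have my1 := M.y1
  have my2 := M.y2
  have mx1 := M.x1
  have mx2 := M.x2
  have hrow := hh_ge hτ (2 * i)
  obtain ⟨p, hp, hpi, -, -, hpe⟩ := cross_im (v := v) (u := u) (c := hh τ (2 * i + 1))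
    (Or.inr ⟨hb, by linarith⟩)
  have hpg := in_gap P M hu hp ⟨by rw [hpi], by rw [hpi]; linarith⟩
  have hpx : |p.re - v.re| ≤ w := by rw [abs_le]; constructor <;> linarith [hpg.1, hpg.2]
  have ray : ∀ z : ℂ, (z.re - v.re) * (u.im - v.im) = (u.re - v.re) * (z.im - v.im) →
      z.im ≤ hh τ (2 * i + 1) → hh τ (2 * i + 1) - 1 ≤ z.im →
      k + 1 - w - 4 * α ≤ z.re ∧ z.re ≤ k + 1 + 4 * α := by
    intro z hz hz1 hz2
    have hpos : u.im - v.im < 0 := by linarith
    have e : (z.re - v.re) * (v.im - hh τ (2 * i + 1)) = (p.re - v.re) *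
        ((v.im - hh τ (2 * i + 1)) + (hh τ (2 * i + 1) - z.im)) := by
      apply mul_right_cancel₀ hpos.ne
      calc (z.re - v.re) * (v.im - hh τ (2 * i + 1)) * (u.im - v.im)
          = ((z.re - v.re) * (u.im - v.im)) * (v.im - hh τ (2 * i + 1)) := by ring
        _ = ((u.re - v.re) * (z.im - v.im)) * (v.im - hh τ (2 * i + 1)) := by rw [hz]
        _ = ((u.re - v.re) * (hh τ (2 * i + 1) - v.im)) * (v.im - z.im) := by ring
        _ = ((p.re - v.re) * (u.im - v.im)) * (v.im - z.im) := by rw [hpe]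
        _ = _ := by ring
    have h1 := ray_bound hτ P.hw e hpx (by linarith) (by linarith) (by linarith)
    rw [abs_le] at h1
    constructor <;> linarith [hpg.1, hpg.2, h1.1, h1.2]
  have hT : hh τ (2 * i + 1) - 1 = hh τ (2 * i) + τ := by rw [hh_succ]; ring
  have hb2 : hh τ (2 * i + 1) - 1 ≤ u.im := by
    by_contra hc
    obtain ⟨q, hq, hqi, hqu, hqv, hqe⟩ := cross_im (v := v) (u := u)
      (c := hh τ (2 * i + 1) - 1) (Or.inr ⟨not_le.1 hc, by linarith⟩)
    have h1 := ray q (by rw [hqe, hqi]) (by rw [hqi]; linarith) (by rw [hqi])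
    have hqW : q ∈ WW m n w τ := W4 P M.hi (by rw [hqi, hT])
      ⟨by linarith [h1.1], by linarith [h1.2]⟩
    rcases hu.2 q hq hqW with h | h
    · exact hqu h
    · exact hqv h
  have h2 := ray u rfl hb.le hb2
  refine ⟨h2, ?_⟩
  by_contra hc
  have hlt : hh τ (2 * i + 1) - 1 < u.im := lt_of_le_of_ne hb2 (Ne.symm hc)
  have hle := hh_mono hτ (show 2 * i + 1 ≤ 2 * m by have := M.hi; omega)
  refine W5 P hu.1 ⟨by linarith [h2.1], by linarith [h2.2]⟩ ⟨by linarith, by linarith⟩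
    fun r _ => slab_not_row (r := 2 * i + 1) hτ ?_ hb
  have : (((2 * i + 1 : ℕ) : ℝ)) * (1 + τ) = hh τ (2 * i + 1) - 1 := by unfold hh; ring
  rw [this]; exact hlt

/-- inside the row -/
theorem seen_row (P : Par m n α τ w) {i k : ℕ} {v u : ℂ} (M : Mid m n w τ i k v)
    (hu : u ∈ visB (WW m n w τ) v)
    (hb : hh τ (2 * i + 1) ≤ u.im ∧ u.im ≤ hh τ (2 * i + 1) + τ) :
    u.re = k + 1 ∨ u.re = k + 1 - w := by
  have h := in_gap P M hu (right_mem_segment ℝ v u) hb
  by_contra hc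
  push Not at hc
  exact W6 P hu.1 M.hi M.hk hb ⟨lt_of_le_of_ne h.1 (Ne.symm hc.2), lt_of_le_of_ne h.2 hc.1⟩

open Measure in
theorem length_seen (P : Par m n α τ w) {i k : ℕ} {v : ℂ} (M : Mid m n w τ i k v) :
    μH[1] (visB (WW m n w τ) v) ≤ ENNReal.ofReal (2 * τ + 2 * (w + 8 * α)) := by
  have hτ := P.hτ
  have hα := P.hα
  have hw0 := P.w_pos
  set t := hh τ (2 * i + 1) with ht
  have hsub : visB (WW m n w τ) v ⊆
      (({z : ℂ | z.re = k + 1 ∧ t ≤ z.im ∧ z.im ≤ t + τ} ∪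
        {z : ℂ | z.re = k + 1 - w ∧ t ≤ z.im ∧ z.im ≤ t + τ}) ∪
      ({z : ℂ | (k + 1 - w - 4 * α ≤ z.re ∧ z.re ≤ k + 1 + 4 * α) ∧ z.im = t + τ + 1} ∪
        {z : ℂ | (k + 1 - w - 4 * α ≤ z.re ∧ z.re ≤ k + 1 + 4 * α) ∧ z.im = t - 1})) := by
    intro u hu
    rcases lt_or_ge (t + τ) u.im with h | h
    · exact Or.inr (Or.inl (seen_up P M hu h))
    · rcases lt_or_ge u.im t with h' | h'
      · exact Or.inr (Or.inr (seen_down P M hu h'))
      · rcases seen_row P M hu ⟨h', h⟩ with h2 | h2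
        · exact Or.inl (Or.inl ⟨h2, h', h⟩)
        · exact Or.inl (Or.inr ⟨h2, h', h⟩)
  have e1 : t + τ - t = τ := by ring
  have e2 : (k + 1 + 4 * α) - (k + 1 - w - 4 * α) = w + 8 * α := by ring
  calc μH[1] (visB (WW m n w τ) v) ≤ _ := measure_mono hsub
    _ ≤ (ENNReal.ofReal τ + ENNReal.ofReal τ) +
        (ENNReal.ofReal (w + 8 * α) + ENNReal.ofReal (w + 8 * α)) := by
      refine (measure_union_le _ _).trans (add_le_add ((measure_union_le _ _).trans
        (add_le_add ?_ ?_)) ((measure_union_le _ _).trans (add_le_add ?_ ?_)))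
      · have := length_ver t (t + τ) (k + 1); rwa [e1] at this
      · have := length_ver t (t + τ) (k + 1 - w); rwa [e1] at this
      · have := length_hor (k + 1 - w - 4 * α) (k + 1 + 4 * α) (t + τ + 1); rwa [e2] at this
      · have := length_hor (k + 1 - w - 4 * α) (k + 1 + 4 * α) (t - 1); rwa [e2] at this
    _ = ENNReal.ofReal (2 * τ + 2 * (w + 8 * α)) := by
      rw [← ENNReal.ofReal_add hτ.le hτ.le, ← ENNReal.ofReal_add (by linarith) (by linarith),
        ← ENNReal.ofReal_add (by linarith) (by linarith)]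
      congr 1; ring

end Pool.Agent.X150.EV
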